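import Pool.Agent.W425.ND.Stm2
import Pool.Agent.W462.SG.G2

set_option autoImplicit false

/-! Project ND of helper425, part V2E: the algebraic relation from the extended functional
equation. -/

namespace Pool.Agent.W54.ND

open MvPolynomial
open Pool.Agent.W425.ND
open Pool.Agent.H628R4.TZ (el dd eval_el eval_dd eval_paeval)
open Pool.Agent.W525.SM (Ex Ex_apply fq ff eval_fc eval_fc_zero mem_anti)
open Pool.Agent.W425.SM (dm)
open Pool.Agent.W462.SG (ym ym_apply term_mono')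
open Pool.Agent.W425.SV (Kil0 Kil1 RelV)

variable {r N : ℕ}

lemma prod_X_ym (u : Fin r → ℕ) :
    (∏ j, X j ^ u j : MvPolynomial (Fin r) ℂ) = monomial (ym u) 1 := by
  rw [monomial_eq, Finsupp.prod_fintype _ _ (by simp)]
  simp [ym]

lemma spa_pow (v : Fin r → Fin N → ℕ) (k : ℕ) :
    spa v (X : Fin r → MvPolynomial (Fin r) ℂ) ^ k = ∑ γ ∈ Finset.piAntidiag Finset.univ k,
      monomial (Ex v γ) (monomial (ym γ) (Nat.multinomial Finset.univ γ : ℂ)) := by
  unfold spa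
  rw [Finset.sum_pow_eq_sum_piAntidiag]
  refine Finset.sum_congr rfl fun γ _ => ?_
  rw [term_mono', prod_X_ym, ← map_natCast (C (σ := Fin N) (R := MvPolynomial (Fin r) ℂ)),
    C_mul_monomial, ← map_natCast (C (σ := Fin r) (R := ℂ)), C_mul_monomial, mul_one]

open Classical in
lemma coeff_spa_pow (v : Fin r → Fin N → ℕ) (k : ℕ) (γ : Fin r →₀ ℕ) (e : Fin N →₀ ℕ) :
    coeff γ (coeff e (spa v (X : Fin r → MvPolynomial (Fin r) ℂ) ^ k)) =
      if Ex v γ = e ∧ ∑ j, γ j = k then (Nat.multinomial Finset.univ γ : ℂ) else 0 := by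
  rw [spa_pow, coeff_sum, coeff_sum]
  by_cases hk : ∑ j, γ j = k
  · rw [Finset.sum_eq_single_of_mem (⇑γ) (mem_anti.2 hk)]
    · rw [coeff_monomial]
      by_cases he : Ex v γ = e
      · rw [if_pos he, if_pos ⟨he, hk⟩, coeff_monomial, if_pos]
        ext j
        rw [ym_apply]
      · rw [if_neg he, if_neg (fun h => he h.1), coeff_zero]
    · intro γ' _ hne
      rw [coeff_monomial]
      split_ifs
      · rw [coeff_monomial, if_neg]
        intro h
        apply hne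
        rw [← h]
        funext j
        rw [ym_apply]
      · rw [coeff_zero]
  · rw [if_neg (fun h => hk h.2)]
    refine Finset.sum_eq_zero fun γ' hγ' => ?_
    rw [coeff_monomial]
    split_ifs
    · rw [coeff_monomial, if_neg]
      intro h
      apply hk
      rw [← h, ← mem_anti.1 hγ']
      exact Finset.sum_congr rfl fun j _ => ym_apply γ' j
    · rw [coeff_zero]

/-- the coefficient of `y ^ ν` -/
noncomputable def Py {α : Type} (ν : Fin r →₀ ℕ)
    (P : MvPolynomial α (MvPolynomial (Fin r) ℂ)) : MvPolynomial α ℂ :=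
  ∑ g ∈ P.support, monomial g (coeff ν (coeff g P))

open Classical in
/-- the exponents of `y` which occur -/
noncomputable def Sy {α : Type} (P : MvPolynomial α (MvPolynomial (Fin r) ℂ)) :
    Finset (Fin r →₀ ℕ) :=
  P.support.biUnion fun g => (coeff g P).support

lemma Py_zero {α : Type} (ν : Fin r →₀ ℕ) (P : MvPolynomial α (MvPolynomial (Fin r) ℂ))
    (h : ν ∉ Sy P) : Py ν P = 0 := by
  classical
  unfold Py
  refine Finset.sum_eq_zero fun g hg => ?_
  have : coeff ν (coeff g P) = 0 := by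
    by_contra hne
    apply h
    unfold Sy
    rw [Finset.mem_biUnion]
    exact ⟨g, hg, mem_support_iff.2 hne⟩
  rw [this, map_zero]

lemma ev_C (s : ℕ) (e : Fin N →₀ ℕ) (o : Option (Fin N)) :
    (ev s e o : MvPolynomial (Fin r) ℂ) = C (ev s e o) := by
  cases o with
  | none => exact (map_natCast C s).symm
  | some i => exact (map_natCast C (e i)).symm

lemma eval_Py (ν : Fin r →₀ ℕ) (P : MvPolynomial (Option (Fin N)) (MvPolynomial (Fin r) ℂ))
    (s : ℕ) (e : Fin N →₀ ℕ) :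
    coeff ν (eval (ev s e) P) = eval (ev s e) (Py ν P) := by
  unfold Py
  rw [eval_eq', coeff_sum, map_sum]
  refine Finset.sum_congr rfl fun g _ => ?_
  rw [eval_monomial, Finsupp.prod_fintype _ _ (by simp)]
  have : ∏ i, (ev s e i : MvPolynomial (Fin r) ℂ) ^ g i = C (∏ i, (ev s e i : ℂ) ^ g i) := by
    rw [map_prod]
    exact Finset.prod_congr rfl fun i _ => by rw [ev_C, map_pow]
  rw [this, mul_comm, coeff_C_mul, mul_comm]

lemma coeff_mul_of (S : Finset (Fin r →₀ ℕ)) (E g : MvPolynomial (Fin r) ℂ)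
    (hE : ∀ ν, ν ∉ S → coeff ν E = 0) (μ : Fin r →₀ ℕ) :
    open scoped Classical in
    coeff μ (E * g) = ∑ ν ∈ S, if ν ≤ μ then coeff ν E * coeff (μ - ν) g else 0 := by
  classical
  have h1 : E = ∑ ν ∈ S, monomial ν (coeff ν E) := by
    conv_lhs => rw [E.as_sum]
    refine Finset.sum_subset (fun ν hν => ?_) (fun ν _ hν => ?_)
    · by_contra h
      exact (mem_support_iff.1 hν) (hE ν h)
    · rw [notMem_support_iff.1 hν, map_zero]
  conv_lhs => rw [h1]
  rw [Finset.sum_mul, coeff_sum]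
  refine Finset.sum_congr rfl fun ν _ => ?_
  rw [coeff_monomial_mul']

/-- `μ0 - ν` -/
def cv (μ0 ν : Fin r →₀ ℕ) (j : Fin r) : ℤ := (μ0 j : ℤ) - ν j

/-- the indices with positive shift -/
def Bd (δ : Fin N → ℤ) : Finset (Fin N) := Finset.univ.filter fun i => 0 < δ i

/-- the condition on `ν` -/
def Cond (v : Fin r → Fin N → ℕ) (a : Fin N →₀ ℕ) (m t : ℕ) (δ : Fin N → ℤ)
    (μ0 ν : Fin r →₀ ℕ) : Prop :=
  ∑ j, cv μ0 ν j = (t : ℤ) - m ∧ ∀ i, ∑ j, cv μ0 ν j * (v j i : ℤ) = δ i - a i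

/-- the remaining factor -/
noncomputable def Kr (v : Fin r → Fin N → ℕ)
    (P : MvPolynomial (Option (Fin N)) (MvPolynomial (Fin r) ℂ)) (t : ℕ) (δ : Fin N → ℤ)
    (ν : Fin r →₀ ℕ) : MvPolynomial (Fin r) ℂ :=
  (if t = 0 then 1 else (∑ j, X j) + 1) * (∏ i ∈ Bd δ, dd v i (δ i).toNat) *
    aeval (fun o => Option.elim o (∑ j, X j : MvPolynomial (Fin r) ℂ)
      fun i => el v i - 1 + C ((δ i : ℤ) : ℂ)) (Py ν P)

/-- the term of `ν` -/
noncomputable def Tm (v : Fin r → Fin N → ℕ)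
    (P : MvPolynomial (Option (Fin N)) (MvPolynomial (Fin r) ℂ)) (t : ℕ) (δ : Fin N → ℤ)
    (M : ℕ) (μ0 ν : Fin r →₀ ℕ) : MvPolynomial (Fin r) ℂ :=
  (∏ i ∈ Bd δ, el v i) * ((∏ j, ff M j (cv μ0 ν j)) * ((∏ j, fq M j (cv μ0 ν j)) *
    Kr v P t δ ν))

lemma eval_Tm (v : Fin r → Fin N → ℕ)
    (P : MvPolynomial (Option (Fin N)) (MvPolynomial (Fin r) ℂ)) (t : ℕ) (δ : Fin N → ℤ)
    (M : ℕ) (μ0 ν : Fin r →₀ ℕ) (x : Fin r → ℂ) :
    eval x (Tm v P t δ M μ0 ν) =
      (∏ j, eval x (ff M j (cv μ0 ν j) * fq M j (cv μ0 ν j))) *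
        ((∏ i ∈ Bd δ, eval x (el v i)) * eval x (Kr v P t δ ν)) := by
  unfold Tm
  simp only [map_mul, map_prod, Finset.prod_mul_distrib]
  ring

lemma eval_maeval' (x : Fin r → ℂ) (g : Option (Fin N) → MvPolynomial (Fin r) ℂ)
    (p : MvPolynomial (Option (Fin N)) ℂ) :
    eval x (aeval g p) = eval (fun i => eval x (g i)) p := by
  induction p using MvPolynomial.induction_on with
  | C a => simp
  | add p q hp hq => rw [map_add, map_add, hp, hq, map_add]
  | mul_X p i hp => rw [map_mul, map_mul, hp, aeval_X, map_mul, eval_X]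

lemma tr_apply (δ : Fin N → ℤ) (e : Fin N →₀ ℕ) (i : Fin N) :
    tr δ e i = ((e i : ℤ) + δ i).toNat := by simp [tr]

/-- the value of the remaining factors -/
lemma eval_Kr (v : Fin r → Fin N → ℕ)
    (P : MvPolynomial (Option (Fin N)) (MvPolynomial (Fin r) ℂ)) (t : ℕ) (ht : t = 0 ∨ t = 1)
    (δ : Fin N → ℤ) (ν : Fin r →₀ ℕ) (u : Fin r → ℕ)
    (h : ∀ i, 0 ≤ (Ex v u i : ℤ) + δ i) :
    (((∑ j, u j).factorial : ℕ) : ℂ) * ((∏ i ∈ Bd δ, eval (fun j => (u j : ℂ)) (el v i)) *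
      eval (fun j => (u j : ℂ)) (Kr v P t δ ν)) =
    (((∑ j, u j + t).factorial : ℕ) : ℂ) *
      ((∏ i, ((Ex v u i : ℤ) + δ i).toNat.descFactorial (δ i).toNat : ℕ) : ℂ) *
      eval (ev (∑ j, u j) (tr δ (Ex v u))) (Py ν P) := by
  have h1 : (((∑ j, u j).factorial : ℕ) : ℂ) * eval (fun j => (u j : ℂ))
      (if t = 0 then (1 : MvPolynomial (Fin r) ℂ) else (∑ j, X j) + 1) =
      (((∑ j, u j + t).factorial : ℕ) : ℂ) := by
    rcases ht with rfl | rfl
    · simp
    · rw [if_neg one_ne_zero, Nat.factorial_succ]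
      simp only [map_add, map_sum, eval_X, map_one]
      push_cast
      ring
  have h2 : (∏ i ∈ Bd δ, eval (fun j => (u j : ℂ)) (el v i)) *
      eval (fun j => (u j : ℂ)) (∏ i ∈ Bd δ, dd v i (δ i).toNat) =
      ((∏ i, ((Ex v u i : ℤ) + δ i).toNat.descFactorial (δ i).toNat : ℕ) : ℂ) := by
    rw [map_prod, ← Finset.prod_mul_distrib]
    push_cast
    have h3 : ∏ i, (((Ex v u i : ℤ) + δ i).toNat.descFactorial (δ i).toNat : ℂ) =
        ∏ i ∈ Bd δ, (((Ex v u i : ℤ) + δ i).toNat.descFactorial (δ i).toNat : ℂ) := by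
      symm
      refine Finset.prod_subset (Finset.subset_univ _) fun i _ hi => ?_
      have h4 : ¬ 0 < δ i := fun h => hi (Finset.mem_filter.2 ⟨Finset.mem_univ _, h⟩)
      have h5 : (δ i).toNat = 0 := by omega
      rw [h5, Nat.descFactorial_zero, Nat.cast_one]
    rw [h3]
    refine Finset.prod_congr rfl fun i hi => ?_
    have h4 : 0 < δ i := (Finset.mem_filter.1 hi).2
    rw [eval_dd v i (δ i).toNat (by omega) u]
    have h5 : ((Ex v u i : ℤ) + δ i).toNat = ∑ j, v j i * u j + (δ i).toNat := by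
      have h6 : Ex v u i = ∑ j, v j i * u j := by
        rw [Ex_apply]
        exact Finset.sum_congr rfl fun j _ => mul_comm _ _
      rw [h6]
      omega
    rw [h5]
  have h6 : eval (fun j => (u j : ℂ)) (aeval (fun o => Option.elim o
      (∑ j, X j : MvPolynomial (Fin r) ℂ) fun i => el v i - 1 + C ((δ i : ℤ) : ℂ)) (Py ν P)) =
      eval (ev (∑ j, u j) (tr δ (Ex v u))) (Py ν P) := by
    rw [eval_maeval']
    congr 2
    funext o
    cases o with
    | none => simp [ev]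
    | some i =>
      simp only [Option.elim_some, map_add, map_sub, map_one, eval_C, eval_el, ev]
      rw [tr_apply]
      have h7 : Ex v u i = ∑ j, v j i * u j := by
        rw [Ex_apply]
        exact Finset.sum_congr rfl fun j _ => mul_comm _ _
      have h8 : (((((Ex v u i : ℤ) + δ i).toNat : ℕ) : ℤ) : ℂ) =
          (((Ex v u i : ℤ) + δ i : ℤ) : ℂ) := by rw [Int.toNat_of_nonneg (h i)]
      rw [Int.cast_natCast] at h8
      rw [h8, h7]
      push_cast
      ring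
  unfold Kr
  rw [map_mul, map_mul, h6, ← h1, ← h2]
  ring

/-- the main term computation -/
lemma term (v : Fin r → Fin N → ℕ)
    (P : MvPolynomial (Option (Fin N)) (MvPolynomial (Fin r) ℂ)) (a : Fin N →₀ ℕ) (m t : ℕ)
    (ht : t = 0 ∨ t = 1) (δ : Fin N → ℤ) (μ0 : Fin r →₀ ℕ) (M : ℕ) (hM : ∀ j, μ0 j ≤ M)
    (u : Fin r → ℕ) :
    open scoped Classical in
    (∏ j, ((u j + M).factorial : ℂ)) * coeff (ym u + μ0)
      (low δ (P • sh t (brk (spa v (X : Fin r → MvPolynomial (Fin r) ℂ)) (monomial a 1) m))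
        (∑ j, u j) (Ex v u)) =
    (((∑ j, u j).factorial : ℕ) : ℂ) * ∑ ν ∈ (Sy P).filter (Cond v a m t δ μ0),
      eval (fun j => (u j : ℂ)) (Tm v P t δ M μ0 ν) := by
  classical
  set s := ∑ j, u j with hs
  set e := Ex v u with he
  set f := spa v (X : Fin r → MvPolynomial (Fin r) ℂ) with hf
  -- the coefficients of the bracket
  have hg : ∀ (e' : Fin N →₀ ℕ) (γ : Fin r →₀ ℕ), coeff γ (brk f (monomial a 1) m (s + t) e') =
      if a ≤ e' ∧ Ex v γ = e' - a ∧ ∑ j, γ j = s + t - m then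
        (((s + t).descFactorial m : ℕ) : ℂ) * (Nat.multinomial Finset.univ γ : ℂ) else 0 := by
    intro e' γ
    unfold brk
    rw [mul_assoc, coeff_monomial_mul', one_mul]
    by_cases ha : a ≤ e'
    · rw [if_pos ha, ← map_natCast (C (σ := Fin N) (R := MvPolynomial (Fin r) ℂ)), coeff_C_mul,
        ← map_natCast (C (σ := Fin r) (R := ℂ)), coeff_C_mul, hf, coeff_spa_pow]
      by_cases h2 : Ex v γ = e' - a ∧ ∑ j, γ j = s + t - m
      · rw [if_pos h2, if_pos ⟨ha, h2⟩]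
      · rw [if_neg h2, if_neg (fun h => h2 h.2), mul_zero]
    · rw [if_neg ha, if_neg (fun h => ha h.1), coeff_zero]
  -- the relation between `γ` and `c`
  have hrel : ∀ ν : Fin r →₀ ℕ, ν ≤ ym u + μ0 → ∀ j, (((ym u + μ0 - ν) j : ℕ) : ℤ) =
      (u j : ℤ) + cv μ0 ν j := by
    intro ν hν j
    have := hν j
    rw [Finsupp.add_apply, ym_apply] at this
    rw [Finsupp.tsub_apply, Finsupp.add_apply, ym_apply]
    unfold cv
    omega
  have hle : ∀ ν : Fin r →₀ ℕ, ν ≤ ym u + μ0 ↔ ∀ j, 0 ≤ (u j : ℤ) + cv μ0 ν j := by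
    intro ν
    constructor
    · intro h j
      rw [← hrel ν h j]
      exact Int.natCast_nonneg _
    · intro h j
      have := h j
      rw [Finsupp.add_apply, ym_apply]
      unfold cv at this
      omega
  have hExγ : ∀ ν : Fin r →₀ ℕ, ν ≤ ym u + μ0 → ∀ i, ((Ex v (⇑(ym u + μ0 - ν : Fin r →₀ ℕ)) i : ℕ) : ℤ) =
      (e i : ℤ) + ∑ j, cv μ0 ν j * (v j i : ℤ) := by
    intro ν hν i
    rw [he, Ex_apply, Ex_apply, Nat.cast_sum, Nat.cast_sum, ← Finset.sum_add_distrib]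
    refine Finset.sum_congr rfl fun j _ => ?_
    rw [Nat.cast_mul, Nat.cast_mul, hrel ν hν j]
    ring
  have hSγ : ∀ ν : Fin r →₀ ℕ, ν ≤ ym u + μ0 → ((∑ j, (ym u + μ0 - ν) j : ℕ) : ℤ) =
      (s : ℤ) + ∑ j, cv μ0 ν j := by
    intro ν hν
    rw [hs]
    push_cast
    rw [← Finset.sum_add_distrib]
    exact Finset.sum_congr rfl fun j _ => hrel ν hν j
  -- vanishing
  have hzero : ∀ ν : Fin r →₀ ℕ, ¬ ν ≤ ym u + μ0 →
      eval (fun j => (u j : ℂ)) (Tm v P t δ M μ0 ν) = 0 := by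
    intro ν hν
    rw [hle] at hν
    push Not at hν
    obtain ⟨j, hj⟩ := hν
    rw [eval_Tm, Finset.prod_eq_zero (Finset.mem_univ j) (eval_fc_zero u M j _ hj), zero_mul]
  unfold low
  have hw : (P • sh t (brk f (monomial a 1) m)) s (tr δ e) =
      eval (ev s (tr δ e)) P * brk f (monomial a 1) m (s + t) (tr δ e) := rfl
  rw [hw]
  by_cases h : ∀ i, 0 ≤ (e i : ℤ) + δ i
  swap
  · rw [if_neg h, coeff_zero, mul_zero]
    rw [Finset.sum_eq_zero, mul_zero]
    intro ν hν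
    rw [Finset.mem_filter] at hν
    apply hzero
    intro hν'
    apply h
    intro i
    have h1 := hExγ ν hν' i
    rw [hν.2.2 i] at h1
    omega
  rw [if_pos h, ← map_natCast (C (σ := Fin r) (R := ℂ)), coeff_C_mul,
    coeff_mul_of (Sy P) _ _ (fun ν hν => by rw [eval_Py, Py_zero ν P hν, map_zero]),
    Finset.sum_filter, Finset.mul_sum, Finset.mul_sum, Finset.mul_sum]
  refine Finset.sum_congr rfl fun ν _ => ?_
  by_cases hν : ν ≤ ym u + μ0
  swap
  · rw [if_neg hν, hzero ν hν]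
    simp
  rw [if_pos hν, hg, eval_Py]
  by_cases hC : Cond v a m t δ μ0 ν
  · rw [if_pos hC]
    have hSg := hSγ ν hν
    rw [hC.1] at hSg
    have hmn : m ≤ s + t := by omega
    have hS1 : ∑ j, (ym u + μ0 - ν) j = s + t - m := by omega
    have hE1 : ∀ i, (Ex v (⇑(ym u + μ0 - ν : Fin r →₀ ℕ)) i + a i : ℕ) = tr δ e i := by
      intro i
      have h1 := hExγ ν hν i
      rw [hC.2 i] at h1
      rw [tr_apply]
      omega
    have hcond : a ≤ tr δ e ∧ Ex v (⇑(ym u + μ0 - ν : Fin r →₀ ℕ)) = tr δ e - a ∧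
        ∑ j, (ym u + μ0 - ν) j = s + t - m := by
      refine ⟨fun i => ?_, ?_, hS1⟩
      · have := hE1 i
        omega
      · ext i
        rw [Finsupp.tsub_apply, ← hE1 i]
        omega
    rw [if_pos hcond]
    have hfac : (∏ j, ((u j + M).factorial : ℂ)) * ((((s + t).descFactorial m : ℕ) : ℂ) *
        (Nat.multinomial Finset.univ (⇑(ym u + μ0 - ν : Fin r →₀ ℕ)) : ℂ)) = (((s + t).factorial : ℕ) : ℂ) *
        ∏ j, eval (fun j => (u j : ℂ)) (ff M j (cv μ0 ν j) * fq M j (cv μ0 ν j)) := by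
      have h1 : ∏ j, ((u j + M).factorial : ℂ) = (∏ j, ((((ym u + μ0 - ν) j).factorial : ℕ) : ℂ)) *
          ∏ j, eval (fun j => (u j : ℂ)) (ff M j (cv μ0 ν j) * fq M j (cv μ0 ν j)) := by
        rw [← Finset.prod_mul_distrib]
        refine Finset.prod_congr rfl fun j _ => ?_
        rw [← eval_fc u M j (cv μ0 ν j) (by unfold cv; have := hM j; omega) ((hle ν).1 hν j),
          ← hrel ν hν j, Int.toNat_natCast]
      have h2 := Nat.multinomial_spec (Finset.univ : Finset (Fin r)) (⇑(ym u + μ0 - ν))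
      rw [hS1] at h2
      have h3 := Nat.factorial_mul_descFactorial hmn
      have h2' : (∏ j, ((((ym u + μ0 - ν) j).factorial : ℕ) : ℂ)) *
          (Nat.multinomial Finset.univ (⇑(ym u + μ0 - ν : Fin r →₀ ℕ)) : ℂ) = (((s + t - m).factorial : ℕ) : ℂ) := by
        exact_mod_cast h2
      have h3' : (((s + t - m).factorial : ℕ) : ℂ) * (((s + t).descFactorial m : ℕ) : ℂ) =
          (((s + t).factorial : ℕ) : ℂ) := by exact_mod_cast h3
      rw [h1, ← h3', ← h2']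
      ring
    have hK := eval_Kr v P t ht δ ν u h
    rw [eval_Tm]
    calc _ = ((∏ j, ((u j + M).factorial : ℂ)) * ((((s + t).descFactorial m : ℕ) : ℂ) *
        (Nat.multinomial Finset.univ (⇑(ym u + μ0 - ν : Fin r →₀ ℕ)) : ℂ))) *
        (((∏ i, ((e i : ℤ) + δ i).toNat.descFactorial (δ i).toNat : ℕ) : ℂ) *
        eval (ev s (tr δ e)) (Py ν P)) := by push_cast; ring
      _ = (∏ j, eval (fun j => (u j : ℂ)) (ff M j (cv μ0 ν j) * fq M j (cv μ0 ν j))) *
        ((((s + t).factorial : ℕ) : ℂ) *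
        ((∏ i, ((e i : ℤ) + δ i).toNat.descFactorial (δ i).toNat : ℕ) : ℂ) *
        eval (ev s (tr δ e)) (Py ν P)) := by rw [hfac]; ring
      _ = _ := by rw [← hK]; ring
  · rw [if_neg hC, mul_zero]
    split_ifs with hcond
    swap
    · simp
    obtain ⟨h1, h2, h3⟩ := hcond
    by_cases hmn : m ≤ s + t
    · exfalso
      apply hC
      refine ⟨?_, fun i => ?_⟩
      · have := hSγ ν hν
        rw [h3] at this
        omega
      · have h4 := hExγ ν hν i
        have h5 := DFunLike.congr_fun h2 i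
        rw [Finsupp.tsub_apply, tr_apply] at h5
        have h6 := h1 i
        rw [tr_apply] at h6
        have h7 := h i
        omega
    · rw [Nat.descFactorial_eq_zero_iff_lt.2 (by omega)]
      simp

/-! ### the ideal -/

/-- the factor of `c` -/
noncomputable def gf (M : ℕ) (c : Fin r → ℤ) : MvPolynomial (Fin r) ℂ :=
  ∏ j, if c j < 0 then X j * dm M j else 1

/-- the generators of weight one -/
def S1 (v : Fin r → Fin N → ℕ) (M : ℕ) : Set (MvPolynomial (Fin r) ℂ) :=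
  {g | ∃ (c : Fin r → ℤ) (B : Finset (Fin N)), Kil1 v c B ∧ g = (∏ i ∈ B, el v i) * gf M c}

/-- the generators of weight zero -/
def S0 (v : Fin r → Fin N → ℕ) (θ : Fin r → ℝ) (loc : Prop) (M : ℕ) :
    Set (MvPolynomial (Fin r) ℂ) :=
  {g | ∃ c : Fin r → ℤ, Kil0 v θ loc c ∧ g = gf M c}

/-- the ideal -/
noncomputable def II (v : Fin r → Fin N → ℕ) (θ : Fin r → ℝ) (loc : Prop) (M : ℕ) :
    Ideal (MvPolynomial (Fin r) ℂ) :=
  Ideal.span (S1 v M) ⊔ Ideal.span (S0 v θ loc M)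

lemma relV_of_mem (v : Fin r → Fin N → ℕ) (θ : Fin r → ℝ) (loc : Prop) (M : ℕ)
    (p : Polynomial ℂ) (h : Polynomial.aeval (∑ j, X j : MvPolynomial (Fin r) ℂ) p *
      ∏ j, dm M j ∈ II v θ loc M) : RelV v θ loc p := by
  obtain ⟨x, hx, y, hy, hxy⟩ := Submodule.mem_sup.1 h
  obtain ⟨n, q, g, hq⟩ := (Submodule.mem_span_set').1 hx
  obtain ⟨n0, q0, g0, hq0⟩ := (Submodule.mem_span_set').1 hy
  choose c B hK hg using fun k => (g k).2
  choose c0 hK0 hg0 using fun k => (g0 k).2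
  refine ⟨M, n, n0, c, B, q, c0, q0, hK, hK0, ?_⟩
  rw [← hxy, ← hq, ← hq0]
  congr 1
  · refine Finset.sum_congr rfl fun k _ => ?_
    rw [hg k, smul_eq_mul]
    unfold gf
    ring
  · refine Finset.sum_congr rfl fun k _ => ?_
    rw [hg0 k, smul_eq_mul]
    unfold gf
    ring

lemma ff_eq (M : ℕ) (c : Fin r → ℤ) : ∏ j, ff M j (c j) = gf M c := rfl

lemma fq_zero' (M : ℕ) (j : Fin r) : fq M j 0 = dm M j := by
  unfold fq dm
  rw [if_neg (lt_irrefl 0)]
  simp

theorem v2e (r N : ℕ) (hr : r ≠ 0) (loc : Prop) (v : Fin r → Fin N → ℕ)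
    (A : MvPolynomial (Fin r) ℂ) (B : Polynomial ℂ) (θ : Fin r → ℝ) (hθ : LinearIndependent ℚ θ)
    (hA : A ≠ 0) (hRel : Rel loc v (spa v (X : Fin r → MvPolynomial (Fin r) ℂ)) A B) :
    RelV v θ loc B := by
  classical
  obtain ⟨L, n, n0, δ, c, m, P, δ0, c0, m0, P0, hc, hc0, h0, hrel⟩ := hRel
  obtain ⟨μ0, hμ0, hmax⟩ := Finset.exists_max_image A.support
    (fun μ => ∑ j, (μ j : ℝ) * θ j) (by rwa [support_nonempty])
  set M : ℕ := ∑ j, μ0 j with hMdef
  have hM : ∀ j, μ0 j ≤ M := fun j =>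
    Finset.single_le_sum (f := fun j => μ0 j) (fun _ _ => Nat.zero_le _) (Finset.mem_univ j)
  set σ : MvPolynomial (Fin r) ℂ := ∑ j, X j with hσ
  set PA : MvPolynomial (Option (Fin N)) (MvPolynomial (Fin r) ℂ) := C A with hPA
  -- the polynomial identity
  set F0 : MvPolynomial (Fin r) ℂ :=
    ∑ ν ∈ (Sy PA).filter (Cond v 0 0 0 (0 : Fin N → ℤ) μ0), Tm v PA 0 0 M μ0 ν with hF0
  set F1 : MvPolynomial (Fin r) ℂ :=
    ∑ k, ∑ ν ∈ (Sy (P k)).filter (Cond v (c k) (m k) 1 (δ k) μ0), Tm v (P k) 1 (δ k) M μ0 ν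
    with hF1
  set F2 : MvPolynomial (Fin r) ℂ :=
    ∑ k, ∑ ν ∈ (Sy (P0 k)).filter (Cond v (c0 k) (m0 k) 0 (δ0 k) μ0),
      Tm v (P0 k) 0 (δ0 k) M μ0 ν with hF2
  have hid : Polynomial.aeval σ B * F0 = F1 + F2 := by
    refine funext_set (fun _ => (Nat.cast : ℕ → ℂ) '' Set.Ici L)
      (fun _ => (Set.Ici_infinite L).image Nat.cast_injective.injOn) fun x hx => ?_
    choose u hu1 hu using fun j => hx j (Set.mem_univ j)
    obtain rfl : x = fun j => (u j : ℂ) := funext fun j => (hu j).symm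
    have hL : L ≤ ∑ j, u j := by
      have h1 : L ≤ u ⟨0, Nat.pos_of_ne_zero hr⟩ := hu1 _
      exact h1.trans (Finset.single_le_sum (f := fun j => u j) (fun _ _ => Nat.zero_le _)
        (Finset.mem_univ _))
    have hn0 : ((((∑ j, u j).factorial : ℕ) : ℂ)) ≠ 0 := by exact_mod_cast Nat.factorial_ne_zero _
    have h1 := congrArg (fun p => (∏ j, ((u j + M).factorial : ℂ)) * coeff (ym u + μ0) p)
      (hrel (∑ j, u j) hL (Ex v u))
    beta_reduce at h1
    have t0 : ∀ k, (∏ j, ((u j + M).factorial : ℂ)) * coeff (ym u + μ0)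
        (low (δ0 k) (P0 k • brk (spa v (X : Fin r → MvPolynomial (Fin r) ℂ))
          (monomial (c0 k) 1) (m0 k)) (∑ j, u j) (Ex v u)) =
        (((∑ j, u j).factorial : ℕ) : ℂ) *
          ∑ ν ∈ (Sy (P0 k)).filter (Cond v (c0 k) (m0 k) 0 (δ0 k) μ0),
          eval (fun j => (u j : ℂ)) (Tm v (P0 k) 0 (δ0 k) M μ0 ν) := fun k =>
      term v (P0 k) (c0 k) (m0 k) 0 (Or.inl rfl) (δ0 k) μ0 M hM u
    rw [coeff_add, coeff_sum, coeff_sum, mul_add, Finset.mul_sum, Finset.mul_sum,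
      Finset.sum_congr rfl fun k _ => term v (P k) (c k) (m k) 1 (Or.inr rfl) (δ k) μ0 M hM u,
      Finset.sum_congr rfl fun k _ => t0 k] at h1
    have h2 := term v PA 0 0 0 (Or.inl rfl) (0 : Fin N → ℤ) μ0 M hM u
    have h3 : low (0 : Fin N → ℤ) (PA • sh 0 (brk (spa v (X : Fin r → MvPolynomial (Fin r) ℂ))
        (monomial 0 1) 0)) (∑ j, u j) (Ex v u) =
        A * coeff (Ex v u) (spa v (X : Fin r → MvPolynomial (Fin r) ℂ) ^ (∑ j, u j)) := by
      unfold low
      have e0 : tr (0 : Fin N → ℤ) (Ex v u) = Ex v u := by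
        ext i
        rw [tr_apply]
        simp
      rw [if_pos (by intro i; simp), e0]
      have e1 : (PA • sh 0 (brk (spa v (X : Fin r → MvPolynomial (Fin r) ℂ))
        (monomial 0 1) 0)) (∑ j, u j) (Ex v u) = eval (ev (∑ j, u j) (Ex v u)) PA *
          coeff (Ex v u) (monomial 0 1 * (((∑ j, u j + 0).descFactorial 0 : ℕ) :
            MvPolynomial (Fin N) (MvPolynomial (Fin r) ℂ)) *
            spa v (X : Fin r → MvPolynomial (Fin r) ℂ) ^ (∑ j, u j + 0 - 0)) := rfl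
      rw [e1, hPA, eval_C]
      simp
    rw [h3] at h2
    have h4 : (∏ j, ((u j + M).factorial : ℂ)) * coeff (ym u + μ0)
        (algebraMap ℂ (MvPolynomial (Fin r) ℂ) (B.eval ((∑ j, u j : ℕ) : ℂ)) * A *
          coeff (Ex v u) (spa v (X : Fin r → MvPolynomial (Fin r) ℂ) ^ (∑ j, u j))) =
        B.eval ((∑ j, u j : ℕ) : ℂ) * ((∏ j, ((u j + M).factorial : ℂ)) * coeff (ym u + μ0)
        (A * coeff (Ex v u) (spa v (X : Fin r → MvPolynomial (Fin r) ℂ) ^ (∑ j, u j)))) := by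
      rw [algebraMap_eq, mul_assoc (C _), coeff_C_mul]
      ring
    rw [h4, h2] at h1
    have hσe : eval (fun j => (u j : ℂ)) σ = ((∑ m, u m : ℕ) : ℂ) := by simp [hσ]
    refine mul_left_cancel₀ hn0 ?_
    rw [map_mul, eval_paeval, hσe, map_add, hF0, hF1, hF2]
    simp only [map_sum]
    rw [mul_left_comm, h1, mul_add, Finset.mul_sum, Finset.mul_sum]
  -- membership
  have mT : ∀ (P : MvPolynomial (Option (Fin N)) (MvPolynomial (Fin r) ℂ)) (t : ℕ)
      (δ : Fin N → ℤ) (ν : Fin r →₀ ℕ), Tm v P t δ M μ0 ν =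
      ((∏ j, fq M j (cv μ0 ν j)) * Kr v P t δ ν) * ((∏ i ∈ Bd δ, el v i) * gf M (cv μ0 ν)) := by
    intro P t δ ν
    unfold Tm
    rw [ff_eq M (cv μ0 ν)]
    ring
  have mF1 : F1 ∈ II v θ loc M := by
    refine Ideal.sum_mem _ fun k _ => Ideal.sum_mem _ fun ν hν => ?_
    rw [mT]
    refine Ideal.mul_mem_left _ _ (Ideal.mem_sup_left (Ideal.subset_span ?_))
    obtain ⟨hν1, hν2⟩ := (Finset.mem_filter.1 hν).2
    obtain ⟨l, hl0, hl1, hl2⟩ := hc k
    refine ⟨cv μ0 ν, Bd (δ k), ⟨l, hl0, ?_, fun i hi => ?_⟩, rfl⟩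
    · rw [Finset.sum_add_distrib, hl1]
      have : ((∑ j, cv μ0 ν j : ℤ) : ℝ) = (((1 : ℕ) : ℤ) - (m k : ℤ) : ℤ) := by rw [hν1]
      push_cast at this
      rw [this]
      ring
    · have h1 : ¬ 0 < δ k i := fun h => hi (Finset.mem_filter.2 ⟨Finset.mem_univ _, h⟩)
      have h2 : ((∑ j, cv μ0 ν j * (v j i : ℤ) : ℤ) : ℝ) = ((δ k i - (c k i : ℤ) : ℤ) : ℝ) := by
        rw [hν2 i]
      push_cast at h2
      have h3 : ∑ j, ((cv μ0 ν j : ℝ) + l j) * (v j i : ℝ) = (δ k i : ℝ) := by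
        simp only [add_mul]
        rw [Finset.sum_add_distrib, hl2 i, h2]
        ring
      rw [h3]
      exact_mod_cast not_lt.1 h1
  have mF2 : F2 ∈ II v θ loc M := by
    refine Ideal.sum_mem _ fun k _ => Ideal.sum_mem _ fun ν hν => ?_
    rw [mT]
    refine Ideal.mul_mem_left _ _ (Ideal.mul_mem_left _ _
      (Ideal.mem_sup_right (Ideal.subset_span ?_)))
    obtain ⟨hν1, hν2⟩ := (Finset.mem_filter.1 hν).2
    obtain ⟨l, hl0, hl1, hl2⟩ := hc0 k
    obtain ⟨hloc, hle, hne⟩ := h0 k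
    have h3 : ∀ i, ∑ j, ((cv μ0 ν j : ℝ) + l j) * (v j i : ℝ) = (δ0 k i : ℝ) := by
      intro i
      have h2 : ((∑ j, cv μ0 ν j * (v j i : ℤ) : ℤ) : ℝ) = ((δ0 k i - (c0 k i : ℤ) : ℤ) : ℝ) := by
        rw [hν2 i]
      push_cast at h2
      simp only [add_mul]
      rw [Finset.sum_add_distrib, hl2 i, h2]
      ring
    refine ⟨cv μ0 ν, Or.inr ⟨hloc, l, hl0, ?_, fun i => ?_, ?_⟩, rfl⟩
    · rw [Finset.sum_add_distrib, hl1]
      have : ((∑ j, cv μ0 ν j : ℤ) : ℝ) = (((0 : ℕ) : ℤ) - (m0 k : ℤ) : ℤ) := by rw [hν1]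
      push_cast at this
      rw [this]
      ring
    · rw [h3 i]
      exact_mod_cast hle i
    · obtain ⟨i, hi⟩ := Function.ne_iff.1 hne
      refine ⟨i, ?_⟩
      rw [h3 i]
      exact_mod_cast lt_of_le_of_ne (hle i) hi
  -- the main term
  set κ : ℂ := coeff μ0 A with hκ
  have hκ0 : κ ≠ 0 := mem_support_iff.1 hμ0
  have hSy : ∀ ν, ν ∈ Sy PA ↔ ν ∈ A.support := by
    intro ν
    unfold Sy
    rw [Finset.mem_biUnion]
    constructor
    · rintro ⟨g, hg, hν⟩
      rw [hPA, coeff_C] at hν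
      split_ifs at hν with h
      · exact hν
      · simp at hν
    · intro hν
      refine ⟨0, ?_, ?_⟩
      · rw [mem_support_iff, hPA, coeff_C, if_pos rfl]
        exact hA
      · rw [hPA, coeff_C, if_pos rfl]
        exact hν
  have hPy : Py μ0 PA = C κ := by
    unfold Py
    have h1 : PA.support = {0} := by
      ext g
      rw [mem_support_iff, hPA, coeff_C, Finset.mem_singleton]
      constructor
      · intro h
        by_contra hne
        exact h (if_neg fun h' => hne h'.symm)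
      · rintro rfl
        rw [if_pos rfl]
        exact hA
    rw [h1, Finset.sum_singleton, hPA, coeff_C, if_pos rfl]
    rfl
  have hcv0 : cv μ0 μ0 = 0 := by
    funext j
    simp [cv]
  have hmem : μ0 ∈ (Sy PA).filter (Cond v 0 0 0 (0 : Fin N → ℤ) μ0) := by
    rw [Finset.mem_filter, hSy]
    refine ⟨hμ0, ?_, fun i => ?_⟩
    · rw [hcv0]; simp
    · rw [hcv0]; simp
  have hT0 : Tm v PA 0 0 M μ0 μ0 = C κ * ∏ j, dm M j := by
    unfold Tm Kr
    have hB0 : Bd (0 : Fin N → ℤ) = ∅ := by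
      unfold Bd
      rw [Finset.filter_false_of_mem]
      intro i _
      simp
    rw [hB0, hPy]
    simp only [Finset.prod_empty, one_mul, if_true, mul_one]
    rw [ff_eq M (cv μ0 μ0), hcv0]
    have h1 : gf M (0 : Fin r → ℤ) = 1 := by
      unfold gf
      exact Finset.prod_eq_one fun j _ => if_neg (lt_irrefl 0)
    rw [h1, one_mul, algHom_C, algebraMap_eq]
    have h2 : ∏ j, fq M j ((0 : Fin r → ℤ) j) = ∏ j, dm M j :=
      Finset.prod_congr rfl fun j _ => fq_zero' M j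
    rw [h2]
    ring
  have mrest : ∑ ν ∈ ((Sy PA).filter (Cond v 0 0 0 (0 : Fin N → ℤ) μ0)).erase μ0,
      Tm v PA 0 0 M μ0 ν ∈ II v θ loc M := by
    refine Ideal.sum_mem _ fun ν hν => ?_
    rw [mT]
    refine Ideal.mul_mem_left _ _ (Ideal.mul_mem_left _ _
      (Ideal.mem_sup_right (Ideal.subset_span ?_)))
    obtain ⟨hne, hν'⟩ := Finset.mem_erase.1 hν
    obtain ⟨hνS, hν1, hν2⟩ := Finset.mem_filter.1 hν'
    refine ⟨cv μ0 ν, Or.inl ⟨by simpa using hν1, fun i => by simpa using hν2 i, ?_⟩, rfl⟩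
    have h1 := hmax ν ((hSy ν).1 hνS)
    have h2 : ∑ j, (cv μ0 ν j : ℝ) * θ j = ∑ j, (μ0 j : ℝ) * θ j - ∑ j, (ν j : ℝ) * θ j := by
      rw [← Finset.sum_sub_distrib]
      refine Finset.sum_congr rfl fun j _ => ?_
      unfold cv
      push_cast
      ring
    refine lt_of_le_of_ne (by rw [h2]; linarith) fun h => hne ?_
    have h3 := Fintype.linearIndependent_iff.1 hθ (fun j => ((cv μ0 ν j : ℤ) : ℚ)) (by
      rw [h]
      refine Finset.sum_congr rfl fun j _ => ?_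
      rw [Rat.smul_def]
      push_cast
      rfl)
    ext j
    have h4 : cv μ0 ν j = 0 := by exact_mod_cast h3 j
    unfold cv at h4
    omega
  apply relV_of_mem v θ loc M
  have h1 : F0 = C κ * ∏ j, dm M j +
      ∑ ν ∈ ((Sy PA).filter (Cond v 0 0 0 (0 : Fin N → ℤ) μ0)).erase μ0,
        Tm v PA 0 0 M μ0 ν := by
    rw [hF0, ← Finset.add_sum_erase _ _ hmem, hT0]
  have h2 : Polynomial.aeval σ B * ∏ j, dm M j = C κ⁻¹ * (F1 + F2 - Polynomial.aeval σ B *
      ∑ ν ∈ ((Sy PA).filter (Cond v 0 0 0 (0 : Fin N → ℤ) μ0)).erase μ0,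
        Tm v PA 0 0 M μ0 ν) := by
    rw [← hid, h1]
    have h3 : (C κ⁻¹ : MvPolynomial (Fin r) ℂ) * C κ = 1 := by
      rw [← C_mul, inv_mul_cancel₀ hκ0, C_1]
    linear_combination (-(Polynomial.aeval σ B * ∏ j, dm M j)) * h3
  rw [h2]
  exact Ideal.mul_mem_left _ _ (Ideal.sub_mem _ (Ideal.add_mem _ mF1 mF2)
    (Ideal.mul_mem_left _ _ mrest))

end Pool.Agent.W54.ND
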